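import Pool.Agent.helper80.SV.Spec

/-!
# sv:E20, quadratic times anything on `P^m × P^1`
-/

set_option autoImplicit false
set_option linter.unusedSectionVars false

namespace Pool.Agent.SV

open MvPolynomial Module

/-- Partial derivatives commute. -/
theorem E20_comm {ι : Type} (i j : ι) (f : MvPolynomial ι ℂ) :
    pderiv i (pderiv j f) = pderiv j (pderiv i f) := by
  classical
  by_cases hij : i = j
  · rw [hij]
  · ext m
    rw [coeff_pderiv, coeff_pderiv, coeff_pderiv, coeff_pderiv, add_right_comm m (Finsupp.single i 1)]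
    simp only [Finsupp.add_apply, Finsupp.single_apply, if_neg hij, if_neg (Ne.symm hij), add_zero]
    ring

section Abs

variable {ι : Type} [Fintype ι] [DecidableEq ι] (c : ι → Fin 2) (S T : ι)

/-- The point `(v; 1, t)` with `v` the coordinate vector of `i` (`v = 0` if `i` is `S` or `T`). -/
noncomputable def E20_pt (i : ι) (t : ℂ) : ι → ℂ :=
  fun v => if v = S then 1 else if v = T then t else if v = i then 1 else 0

/-- The polynomial `g(0; 1, t)`. -/
noncomputable def E20_p (g : MvPolynomial ι ℂ) : Polynomial ℂ :=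
  aeval (fun v => if v = S then (1 : Polynomial ℂ) else if v = T then Polynomial.X else 0) g

theorem E20_eval (g : MvPolynomial ι ℂ) (t : ℂ) :
    (E20_p S T g).eval t = eval (E20_pt S T S t) g := by
  unfold E20_p
  have h1 : (Polynomial.aeval t : Polynomial ℂ →ₐ[ℂ] ℂ)
      (aeval (fun v => if v = S then (1 : Polynomial ℂ) else if v = T then Polynomial.X else 0) g) =
      aeval (fun v => (Polynomial.aeval t : Polynomial ℂ →ₐ[ℂ] ℂ)
        (if v = S then (1 : Polynomial ℂ) else if v = T then Polynomial.X else 0)) g := by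
    have h2 := (MvPolynomial.comp_aeval (R := ℂ)
      (fun v => if v = S then (1 : Polynomial ℂ) else if v = T then Polynomial.X else 0)
      (Polynomial.aeval t : Polynomial ℂ →ₐ[ℂ] ℂ))
    exact congrArg (fun φ : MvPolynomial ι ℂ →ₐ[ℂ] ℂ => φ g) h2
  rw [Polynomial.coe_aeval_eq_eval] at h1
  rw [h1, MvPolynomial.aeval_eq_eval]
  congr 2
  funext v
  unfold E20_pt
  by_cases h3 : v = S
  · rw [if_pos h3, if_pos h3, Polynomial.eval_one]
  · by_cases h4 : v = T
    · rw [if_neg h3, if_pos h4, if_neg h3, if_pos h4, Polynomial.eval_X]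
    · rw [if_neg h3, if_neg h4, if_neg h3, if_neg h4, if_neg h3, Polynomial.eval_zero]

theorem E20_deriv (hST : S ≠ T) (g : MvPolynomial ι ℂ) (t : ℂ) :
    (Polynomial.derivative (E20_p S T g)).eval t = eval (E20_pt S T S t) (pderiv T g) := by
  rw [← E20_eval]
  congr 1
  unfold E20_p
  induction g using MvPolynomial.induction_on with
  | C a => simp
  | add p q hp hq => simp only [map_add, hp, hq]
  | mul_X p v hp =>
    obtain ⟨φ, hφ⟩ : ∃ φ : ι → Polynomial ℂ, φ =
        fun v => if v = S then (1 : Polynomial ℂ) else if v = T then Polynomial.X else 0 :=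
      ⟨_, rfl⟩
    rw [← hφ] at hp ⊢
    have h1 : aeval φ (p * X v) = aeval φ p * φ v := by rw [map_mul, aeval_X]
    have h2 : aeval φ (pderiv T (p * X v)) =
        aeval φ (pderiv T p) * φ v +
          aeval φ p * aeval φ (pderiv T (X v : MvPolynomial ι ℂ)) := by
      rw [pderiv_mul, map_add, map_mul, map_mul, aeval_X]
    rw [h1, h2, Polynomial.derivative_mul, hp]
    congr 2
    by_cases h3 : v = T
    · subst h3
      rw [pderiv_X_self, map_one, hφ]
      simp only [if_neg (Ne.symm hST), if_true, Polynomial.derivative_X]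
    · rw [pderiv_X_of_ne h3, map_zero, hφ]
      by_cases h4 : v = S
      · simp only [if_pos h4, Polynomial.derivative_one]
      · simp only [if_neg h4, if_neg h3, Polynomial.derivative_zero]

theorem E20_deg (hcT : c T = 1) (d : Fin 2 → ℕ) (g : MvPolynomial ι ℂ)
    (hg : g ∈ Sec c Finset.univ d) : (E20_p S T g).natDegree ≤ d 1 := by
  unfold E20_p
  rw [MvPolynomial.aeval_def, MvPolynomial.eval₂_eq]
  refine Polynomial.natDegree_sum_le_of_forall_le _ _ fun m hm => ?_
  have hm' := (mem_Sec.1 hg) m (MvPolynomial.mem_support_iff.1 hm)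
  have h1 : m T ≤ d 1 := by
    rw [← hm'.2 1]
    exact Finset.single_le_sum (f := fun i => m i) (fun _ _ => Nat.zero_le _)
      (Finset.mem_filter.2 ⟨Finset.mem_univ T, hcT⟩)
  refine le_trans (Polynomial.natDegree_mul_le) ?_
  have h2 : (algebraMap ℂ (Polynomial ℂ) (coeff m g)).natDegree = 0 := Polynomial.natDegree_C _
  rw [h2, zero_add]
  refine le_trans (Polynomial.natDegree_prod_le _ _) (le_trans ?_ h1)
  calc ∑ i ∈ m.support, (((if i = S then (1 : Polynomial ℂ) else if i = T then Polynomial.X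
        else 0)) ^ m i).natDegree
      ≤ ∑ i ∈ m.support, if i = T then m T else 0 := by
        refine Finset.sum_le_sum fun i _ => ?_
        refine le_trans Polynomial.natDegree_pow_le ?_
        by_cases h3 : i = T
        · subst h3
          by_cases h4 : i = S
          · simp [h4]
          · simp [h4]
        · by_cases h4 : i = S
          · simp [h4]
          · simp [h3, h4]
    _ ≤ m T := by
        rw [Finset.sum_ite_eq']
        split
        · exact le_refl _
        · exact Nat.zero_le _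

variable {c S T}

/-- `g` of degree zero in the first group does not depend on the first group. -/
theorem E20_indep (hHOM : HOM_stmt) (d : Fin 2 → ℕ) (hd : d 0 = 0) (hcS : c S = 1)
    (hcT : c T = 1) (g : MvPolynomial ι ℂ) (hg : g ∈ Sec c Finset.univ d) (i : ι) (hi : c i = 0)
    (t : ℂ) : eval (E20_pt S T i t) g = eval (E20_pt S T S t) g := by
  have h1 := (hHOM c Finset.univ d g hg).1 ![0, 1] (E20_pt S T i t)
  have h2 : (∏ k, (![0, 1] : Fin 2 → ℂ) k ^ d k) = 1 := by
    rw [Fin.prod_univ_two, hd]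
    simp
  rw [h2, one_mul] at h1
  rw [← h1]
  congr 2
  funext v
  unfold E20_pt
  by_cases h3 : v = S
  · subst h3
    simp [hcS]
  · by_cases h4 : v = T
    · subst h4
      simp [h3, hcT]
    · by_cases h5 : v = i
      · subst h5
        simp [h3, h4, hi]
      · simp [h3, h4, h5]

/-- A form in the second group only which vanishes at all `(0; 1, t)` is zero. -/
theorem E20_zero (hHOM : HOM_stmt) (d : Fin 2 → ℕ) (hd : d 0 = 0) (hcS : c S = 1)
    (hST : S ≠ T) (hcT : c T = 1) (hall : ∀ v, c v = 1 → v = S ∨ v = T) (g : MvPolynomial ι ℂ)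
    (hg : g ∈ Sec c Finset.univ d) (h : ∀ t : ℂ, eval (E20_pt S T S t) g = 0) : g = 0 := by
  have h1 : X S * g = 0 := by
    refine MvPolynomial.funext fun x => ?_
    rw [map_mul, eval_X, map_zero]
    by_cases hx : x S = 0
    · rw [hx, zero_mul]
    · have h2 := (hHOM c Finset.univ d g hg).1 ![0, x S] (E20_pt S T S (x T / x S))
      rw [h, mul_zero] at h2
      have h3 := (hHOM c Finset.univ d g hg).1 ![0, 1] x
      have h4 : (∏ k, (![0, 1] : Fin 2 → ℂ) k ^ d k) = 1 := by
        rw [Fin.prod_univ_two, hd]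
        simp
      rw [h4, one_mul] at h3
      rw [← h3]
      have h5 : (fun i => (![0, 1] : Fin 2 → ℂ) (c i) * x i) =
          fun i => (![0, x S] : Fin 2 → ℂ) (c i) * E20_pt S T S (x T / x S) i := by
        funext v
        unfold E20_pt
        by_cases hv : c v = 1
        · rcases hall v hv with h6 | h6
          · subst h6
            simp [hv]
          · subst h6
            simp only [hv, if_neg (Ne.symm hST), if_true]
            simp only [Matrix.cons_val_one, Matrix.cons_val_fin_one, one_mul]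
            field_simp
        · have hv0 : c v = 0 := by
            have : c v = 0 ∨ c v = 1 := by omega
            exact this.resolve_right hv
          simp [hv0]
      rw [h5, h2, mul_zero]
  rcases mul_eq_zero.1 h1 with h2 | h2
  · exact absurd h2 (X_ne_zero S)
  · exact h2

/-- Euler relation at the coordinate points. -/
theorem E20_eul (hEUL : EUL_stmt) (d : Fin 2 → ℕ) (hcS : c S = 1)
    (hcT : c T = 1) (g : MvPolynomial ι ℂ) (hg : g ∈ Sec c Finset.univ d) (i : ι) (hi : c i = 0)
    (t : ℂ) : eval (E20_pt S T i t) (pderiv i g) = (d 0 : ℂ) * eval (E20_pt S T i t) g := by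
  rw [← hEUL c Finset.univ d g hg 0 (E20_pt S T i t)]
  rw [Finset.sum_eq_single i]
  · have h1 : E20_pt S T i t i = 1 := by
      unfold E20_pt
      have h2 : i ≠ S := fun h => by rw [h, hcS] at hi; exact absurd hi (by decide)
      have h3 : i ≠ T := fun h => by rw [h, hcT] at hi; exact absurd hi (by decide)
      simp [h2, h3]
    rw [h1, one_mul]
  · intro v hv hvi
    have hv0 : c v = 0 := (Finset.mem_filter.1 hv).2
    have h2 : v ≠ S := fun h => by rw [h, hcS] at hv0; exact absurd hv0 (by decide)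
    have h3 : v ≠ T := fun h => by rw [h, hcT] at hv0; exact absurd hv0 (by decide)
    unfold E20_pt
    simp [h2, h3, hvi]
  · intro h
    exact absurd (Finset.mem_filter.2 ⟨Finset.mem_univ i, hi⟩) h

/-- A polynomial with too many double zeros. -/
theorem E20_dbl (p : Polynomial ℂ) (s : Finset ℂ) (hdeg : p.natDegree < 2 * s.card)
    (h : ∀ t ∈ s, p.eval t = 0 ∧ (Polynomial.derivative p).eval t = 0) : p = 0 := by
  by_contra hp
  have h1 : ∀ t ∈ s, 2 ≤ p.roots.count t := by
    intro t ht
    rw [Polynomial.count_roots]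
    exact (Polynomial.one_lt_rootMultiplicity_iff_isRoot hp).2 (h t ht)
  have h2 : s ⊆ p.roots.toFinset := by
    intro t ht
    rw [Multiset.mem_toFinset, Polynomial.mem_roots hp]
    exact (h t ht).1
  have h3 : ∑ t ∈ s, p.roots.count t ≤ Multiset.card p.roots := by
    rw [← Multiset.toFinset_sum_count_eq]
    exact Finset.sum_le_sum_of_subset h2
  have h4 : ∑ t ∈ s, 2 ≤ ∑ t ∈ s, p.roots.count t := Finset.sum_le_sum h1
  have h5 := Polynomial.card_roots' p
  rw [Finset.sum_const, smul_eq_mul] at h4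
  omega

theorem E20_low (hHOM : HOM_stmt) (d : Fin 2 → ℕ) (f : MvPolynomial ι ℂ)
    (hf : f ∈ Sec c Finset.univ d) (i : ι) : pderiv i f ∈ Sec c Finset.univ (low d (c i)) := by
  rcases (hHOM c Finset.univ d f hf).2.2.2.1 i with h | h
  · exact h
  · rw [h]
    exact Submodule.zero_mem _

/-- The key vanishing statement. -/
theorem E20_key (hEUL : EUL_stmt) (hHOM : HOM_stmt) (hcS : c S = 1) (hcT : c T = 1)
    (hST : S ≠ T) (hall : ∀ v, c v = 1 → v = S ∨ v = T) (b : ℕ) (d : Fin 2 → ℕ) (hd0 : d 0 = 2)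
    (hd1 : d 1 = 2 * b + 1) (f : MvPolynomial ι ℂ) (hf : f ∈ Sec c Finset.univ d)
    (Λ : ι → Finset ℂ) (hcard : ∀ i, c i = 0 → (Λ i).card = b + 1)
    (hdis : ∀ i j, c i = 0 → c j = 0 → i ≠ j → Disjoint (Λ i) (Λ j))
    (hv : ∀ i, c i = 0 → ∀ t ∈ Λ i, ∀ v, eval (E20_pt S T i t) (pderiv v f) = 0) : f = 0 := by
  have hl0 : low (low d 0) 0 0 = 0 := by simp [low, hd0]
  have hl1 : low (low d 0) 0 1 = 2 * b + 1 := by simp [low, hd1]
  have hm0 : low d 0 0 = 1 := by simp [low, hd0]
  have hsec : ∀ i j, c i = 0 → c j = 0 →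
      pderiv i (pderiv j f) ∈ Sec c Finset.univ (low (low d 0) 0) := by
    intro i j hi hj
    have h1 := E20_low (c := c) hHOM d f hf j
    rw [hj] at h1
    have h2 := E20_low (c := c) hHOM _ _ h1 i
    rw [hi] at h2
    exact h2
  have hstep : ∀ i j, c i = 0 → c j = 0 → ∀ t ∈ Λ i,
      eval (E20_pt S T S t) (pderiv i (pderiv j f)) = 0 := by
    intro i j hi hj t ht
    rw [← E20_indep hHOM _ hl0 hcS hcT _ (hsec i j hi hj) i hi t]
    have h1 := E20_low (c := c) hHOM d f hf j
    rw [hj] at h1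
    rw [E20_eul hEUL _ hcS hcT _ h1 i hi t, hv i hi t ht j, mul_zero]
  have hg : ∀ i j, c i = 0 → c j = 0 → pderiv i (pderiv j f) = 0 := by
    intro i j hi hj
    have hp0 : E20_p S T (pderiv i (pderiv j f)) = 0 := by
      have hdeg := E20_deg c S T hcT _ _ (hsec i j hi hj)
      rw [hl1] at hdeg
      by_cases hij : i = j
      · subst hij
        refine E20_dbl _ (Λ i) (by rw [hcard i hi]; omega) fun t ht => ⟨?_, ?_⟩
        · rw [E20_eval]
          exact hstep i i hi hi t ht
        · rw [E20_deriv S T hST]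
          have h1 := E20_low (c := c) hHOM _ _ (hsec i i hi hi) T
          have h2 : low (low (low d 0) 0) (c T) 0 = 0 := by
            rw [hcT]
            simp [low, hd0]
          rw [← E20_indep hHOM _ h2 hcS hcT _ h1 i hi t, E20_comm T i, E20_comm T i]
          have h3 := E20_low (c := c) hHOM d f hf T
          have h4 := E20_low (c := c) hHOM _ _ h3 i
          rw [E20_eul hEUL _ hcS hcT _ h4 i hi t, E20_eul hEUL _ hcS hcT _ h3 i hi t,
            hv i hi t ht T, mul_zero, mul_zero]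
      · refine Polynomial.eq_zero_of_natDegree_lt_card_of_eval_eq_zero' _ (Λ i ∪ Λ j) ?_ ?_
        · intro t ht
          rw [E20_eval]
          rcases Finset.mem_union.1 ht with h | h
          · exact hstep i j hi hj t h
          · rw [E20_comm i j]
            exact hstep j i hj hi t h
        · rw [Finset.card_union_of_disjoint (hdis i j hi hj hij), hcard i hi, hcard j hj]
          omega
    refine E20_zero hHOM _ hl0 hcS hST hcT hall _ (hsec i j hi hj) fun t => ?_
    rw [← E20_eval, hp0, Polynomial.eval_zero]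
  refine MvPolynomial.funext fun x => ?_
  rw [map_zero]
  have h1 := hEUL c Finset.univ d f hf 0 x
  have h2 : ∀ j, c j = 0 → eval x (pderiv j f) = 0 := by
    intro j hj
    have h3 := E20_low (c := c) hHOM d f hf j
    rw [hj] at h3
    have h4 := hEUL c Finset.univ _ _ h3 0 x
    rw [hm0, Nat.cast_one, one_mul] at h4
    rw [← h4]
    refine Finset.sum_eq_zero fun i hi => ?_
    rw [hg i j (Finset.mem_filter.1 hi).2 hj, map_zero, mul_zero]
  rw [Finset.sum_eq_zero (fun i hi => by
    rw [h2 i (Finset.mem_filter.1 hi).2, mul_zero]), hd0] at h1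
  have h3 := mul_eq_zero.1 h1.symm
  rcases h3 with h3 | h3
  · norm_num at h3
  · exact h3

end Abs

/-! ## The two parities -/

theorem E20_card {k : ℕ} (n : Fin k → ℕ) (j : Fin k) :
    (Finset.univ.filter (fun i : Var n => i.1 = j)).card = n j + 1 := by
  classical
  have h1 : Finset.univ.filter (fun i : Var n => i.1 = j) =
      Finset.univ.image (fun a : Fin (n j + 1) => (⟨j, a⟩ : Var n)) := by
    ext v
    simp only [Finset.mem_filter, Finset.mem_univ, true_and, Finset.mem_image]
    constructor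
    · rintro rfl
      exact ⟨v.2, rfl⟩
    · rintro ⟨a, rfl⟩
      rfl
  rw [h1, Finset.card_image_of_injective _ sigma_mk_injective, Finset.card_univ, Fintype.card_fin]

theorem E20_dim (hMHS : MHS_stmt) (hDIM : DIM_stmt) (n d : Fin 2 → ℕ) :
    finrank ℂ (MultiHom n d) = Nat.multichoose (n 0 + 1) (d 0) * Nat.multichoose (n 1 + 1) (d 1) := by
  rw [hMHS 2 n d, hDIM, Fin.prod_univ_two, E20_card n 0, E20_card n 1]

theorem E20_two (m : ℕ) : Nat.multichoose (m + 1) 2 * 2 = (m + 1) * (m + 2) := by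
  rw [Nat.multichoose_eq]
  have h1 := Nat.add_one_mul_choose_eq (m + 1) 1
  rw [Nat.choose_one_right] at h1
  have h2 : m + 1 + 2 - 1 = m + 1 + 1 := by omega
  rw [h2]
  have h3 : 1 + 1 = 2 := rfl
  rw [h3] at h1
  rw [← h1]
  ring

/-- The index of a variable of the first group. -/
def E20_J (m : ℕ) (v : Var ![m, 1]) : Fin (m + 1) :=
  if h : v.1 = 0 then Fin.cast (by rw [h]; rfl) v.2 else 0

theorem E20_J_spec (m : ℕ) (v : Var ![m, 1]) (h : v.1 = 0) :
    v = (⟨0, E20_J m v⟩ : Var ![m, 1]) := by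
  obtain ⟨i, j⟩ := v
  change i = 0 at h
  subst h
  unfold E20_J
  rw [dif_pos rfl]
  rfl

theorem E20_odd (hALR : ALR_stmt) (hMHS : MHS_stmt) (hDIM : DIM_stmt) (hEUL : EUL_stmt)
    (hHOM : HOM_stmt) (m b : ℕ) : ¬ Special ![m, 1] ![2, 2 * b + 1] := by
  classical
  have hh : finrank ℂ (MultiHom ![m, 1] ![2, 2 * b + 1]) = (m + 1) * (b + 1) * (m + 2) := by
    rw [E20_dim hMHS hDIM]
    change Nat.multichoose (m + 1) 2 * Nat.multichoose 2 (2 * b + 1) = _
    rw [Nat.multichoose_two]
    have h1 := E20_two m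
    have h2 : Nat.multichoose (m + 1) 2 * (2 * b + 1 + 1) =
        Nat.multichoose (m + 1) 2 * 2 * (b + 1) := by ring
    rw [h2, h1]
    ring
  have hsum : ∑ i, (![m, 1] : Fin 2 → ℕ) i + 1 = m + 2 := by
    rw [Fin.sum_univ_two]
    rfl
  have hsum' : ∑ i, (![m, 1] : Fin 2 → ℕ) i = m + 1 := by
    rw [Fin.sum_univ_two]
    rfl
  refine hALR 2 _ _ (by norm_num) ?_ ?_
  · intro i
    fin_cases i
    · exact one_le_two
    · change 1 ≤ 2 * b + 1
      omega
  · intro r hr
    have hr' : r = (m + 1) * (b + 1) := by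
      rw [hsum, hsum', hh] at hr
      rcases hr with h | h
      · rw [h, Nat.mul_div_cancel _ (by omega : 0 < m + 2)]
      · rw [h, mul_comm _ (m + 2), Nat.mul_add_div (by omega : m + 2 > 0),
          Nat.div_eq_of_lt (by omega : m + 1 < m + 2), add_zero]
    subst hr'
    obtain ⟨S, hS⟩ : ∃ S : Var ![m, 1], S = ⟨1, (0 : Fin 2)⟩ := ⟨_, rfl⟩
    obtain ⟨T, hT⟩ : ∃ T : Var ![m, 1], T = ⟨1, (1 : Fin 2)⟩ := ⟨_, rfl⟩
    have hcS : S.1 = 1 := by rw [hS]
    have hcT : T.1 = 1 := by rw [hT]
    have hST : S ≠ T := by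
      rw [hS, hT]
      intro h
      have h1 := sigma_mk_injective (β := fun i : Fin 2 => Fin ((![m, 1] : Fin 2 → ℕ) i + 1)) h
      exact absurd (show (0 : Fin 2) = 1 from h1) (by decide)
    have hall : ∀ v : Var ![m, 1], v.1 = 1 → v = S ∨ v = T := by
      rintro ⟨i, j⟩ h
      change i = 1 at h
      subst h
      rw [hS, hT]
      change Fin 2 at j
      fin_cases j
      · left
        rfl
      · right
        rfl
    let u : Fin (m + 1) × Fin (b + 1) ≃ Fin ((m + 1) * (b + 1)) := finProdFinEquiv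
    let x : Fin ((m + 1) * (b + 1)) → Var ![m, 1] → ℂ :=
      fun l => E20_pt S T (⟨0, (u.symm l).1⟩ : Var ![m, 1]) ((l : ℕ) : ℂ)
    refine ⟨x, ?_⟩
    have hbot : Sng (Sigma.fst : Var ![m, 1] → Fin 2) ![2, 2 * b + 1] x = ⊥ := by
      rw [eq_bot_iff]
      intro f hf
      obtain ⟨hf1, hf2⟩ := mem_Sng.1 hf
      rw [Submodule.mem_bot]
      have hinj : ∀ p q : Fin (m + 1) × Fin (b + 1),
          (((u p : ℕ) : ℂ)) = ((u q : ℕ) : ℂ) → p = q := by
        intro p q h
        have h1 : (u p : ℕ) = (u q : ℕ) := by exact_mod_cast h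
        exact u.injective (Fin.ext h1)
      refine E20_key (c := (Sigma.fst : Var ![m, 1] → Fin 2)) hEUL hHOM hcS hcT hST hall b
        ![2, 2 * b + 1] rfl rfl f hf1
        (fun v => Finset.univ.image fun a : Fin (b + 1) => (((u (E20_J m v, a) : ℕ) : ℂ))) ?_ ?_ ?_
      · intro i _
        rw [Finset.card_image_of_injective, Finset.card_univ, Fintype.card_fin]
        intro a a' h
        exact congrArg Prod.snd (hinj _ _ h)
      · intro i j hi hj hij
        rw [Finset.disjoint_left]
        intro t ht ht'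
        obtain ⟨a, -, ha⟩ := Finset.mem_image.1 ht
        obtain ⟨a', -, ha'⟩ := Finset.mem_image.1 ht'
        rw [← ha'] at ha
        apply hij
        have he : E20_J m i = E20_J m j := congrArg Prod.fst (hinj _ _ ha)
        rw [E20_J_spec m i hi, E20_J_spec m j hj]
        exact congrArg (fun a : Fin (m + 1) => (⟨0, a⟩ : Var ![m, 1])) he
      · intro i hi t ht v
        obtain ⟨a, -, ha⟩ := Finset.mem_image.1 ht
        have h1 := hf2 (u (E20_J m i, a)) v
        have h2 : x (u (E20_J m i, a)) = E20_pt S T i t := by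
          change E20_pt S T (⟨0, (u.symm (u (E20_J m i, a))).1⟩ : Var ![m, 1])
            (((u (E20_J m i, a) : ℕ) : ℂ)) = _
          rw [ha, Equiv.symm_apply_apply, ← E20_J_spec m i hi]
        rw [h2] at h1
        exact h1
    rw [hbot, finrank_bot]
    exact Nat.zero_le _

theorem E20_mul {k : ℕ} {n d d' : Fin k → ℕ} {f g : MvPolynomial (Var n) ℂ}
    (hf : f ∈ MultiHom n d) (hg : g ∈ MultiHom n d') :
    f * g ∈ MultiHom n (fun i => d i + d' i) := by
  classical
  intro m hm i
  rw [coeff_mul] at hm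
  obtain ⟨p, hp, hne⟩ := Finset.exists_ne_zero_of_sum_ne_zero hm
  have h1 : coeff p.1 f ≠ 0 := left_ne_zero_of_mul hne
  have h2 : coeff p.2 g ≠ 0 := right_ne_zero_of_mul hne
  have h3 : p.1 + p.2 = m := Finset.HasAntidiagonal.mem_antidiagonal.1 hp
  change _ = d i + d' i
  rw [← hf p.1 h1 i, ← hg p.2 h2 i, ← Finset.sum_add_distrib, ← h3]
  rfl

theorem E20_even (hMHS : MHS_stmt) (hDIM : DIM_stmt) (m a : ℕ) (hm : 1 ≤ m) (ha : 1 ≤ a) :
    Special ![m, 1] ![2, 2 * a] := by
  classical
  have hh : finrank ℂ (MultiHom ![m, 1] ![2, 2 * a]) * 2 = (m + 1) * (m + 2) * (2 * a + 1) := by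
    rw [E20_dim hMHS hDIM]
    change Nat.multichoose (m + 1) 2 * Nat.multichoose 2 (2 * a) * 2 = _
    rw [Nat.multichoose_two, ← E20_two m]
    ring
  have hsum : ∑ i, (![m, 1] : Fin 2 → ℕ) i + 1 = m + 2 := by
    rw [Fin.sum_univ_two]
    rfl
  refine ⟨(a + 1) * (m + 1) - 1, ?_, ?_⟩
  · have : 2 * 2 ≤ (a + 1) * (m + 1) := Nat.mul_le_mul (by omega) (by omega)
    omega
  rintro ⟨F, hF, hgen⟩
  obtain ⟨r, hr⟩ : ∃ r : ℕ, (a + 1) * (m + 1) = r + 1 :=
    ⟨(a + 1) * (m + 1) - 1, by
      have : 2 * 2 ≤ (a + 1) * (m + 1) := Nat.mul_le_mul (by omega) (by omega)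
      omega⟩
  have hr' : (a + 1) * (m + 1) - 1 = r := by omega
  -- a good tuple
  have hG : F * ∏ v, X v ≠ 0 := mul_ne_zero hF (Finset.prod_ne_zero_iff.2 fun v _ => X_ne_zero v)
  obtain ⟨y, hy⟩ : ∃ y, eval y (F * ∏ v, X v) ≠ 0 := by
    by_contra hcon
    push Not at hcon
    exact hG (MvPolynomial.funext fun y => by rw [hcon y, map_zero])
  rw [map_mul, map_prod] at hy
  have hyF : eval y F ≠ 0 := left_ne_zero_of_mul hy
  have hyv : ∀ v, y v ≠ 0 := by
    intro v
    have h1 := Finset.prod_ne_zero_iff.1 (right_ne_zero_of_mul hy) v (Finset.mem_univ v)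
    rwa [eval_X] at h1
  have hind := hgen (fun l v => y (l, v)) (fun l i => ⟨0, hyv _⟩) hyF
  obtain ⟨p, hp⟩ : ∃ p : Fin ((a + 1) * (m + 1) - 1) → Var ![m, 1] → ℂ,
    p = fun l v => y (l, v) := ⟨_, rfl⟩
  rw [← hp] at hind
  unfold Independent at hind
  rw [hsum] at hind
  have hle : finrank ℂ (MultiHom ![m, 1] ![2, 2 * a]) ≤ ((a + 1) * (m + 1) - 1) * (m + 2) := by
    rw [hr']
    have h1 : 2 ≤ m + 1 := by omega
    have h2 : (m + 1) * (m + 2) * (2 * a + 1) + (m + 1) * (m + 2) = 2 * ((r + 1) * (m + 2)) := by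
      rw [← hr]
      ring
    have h3 : 2 * (m + 2) ≤ (m + 1) * (m + 2) := Nat.mul_le_mul_right _ h1
    nlinarith
  rw [Nat.sub_eq_zero_of_le hle] at hind
  -- a form of half the degree
  have hdimE : finrank ℂ (MultiHom ![m, 1] ![1, a]) = r + 1 := by
    rw [E20_dim hMHS hDIM]
    change Nat.multichoose (m + 1) 1 * Nat.multichoose 2 a = _
    rw [Nat.multichoose_two, Nat.multichoose_one_right, ← hr, mul_comm]
  have hfinE : Module.Finite ℂ (MultiHom ![m, 1] ![1, a]) := by
    rw [hMHS 2]
    infer_instance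
  have hfin2 : Module.Finite ℂ (MultiHom ![m, 1] ![2, 2 * a]) := by
    rw [hMHS 2]
    infer_instance
  let L : ↥(MultiHom ![m, 1] ![1, a]) →ₗ[ℂ] (Fin ((a + 1) * (m + 1) - 1) → ℂ) :=
    LinearMap.pi fun l => evL (p l) ∘ₗ (MultiHom ![m, 1] ![1, a]).subtype
  have hker : LinearMap.ker L ≠ ⊥ := by
    refine LinearMap.ker_ne_bot_of_finrank_lt ?_
    rw [hdimE, Module.finrank_fin_fun, hr']
    exact Nat.lt_succ_self r
  obtain ⟨g, hg, hg0⟩ := Submodule.exists_mem_ne_zero_of_ne_bot hker
  have hgl : ∀ l, eval (p l) g.1 = 0 := by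
    intro l
    have h1 := congrFun (LinearMap.mem_ker.1 hg) l
    simpa [L] using h1
  have hsq : g.1 * g.1 ∈ Sys ![m, 1] ![2, 2 * a] p := by
    refine Submodule.mem_inf.2 ⟨?_, ?_⟩
    · have h1 := E20_mul g.2 g.2
      have h2 : (fun i => (![1, a] : Fin 2 → ℕ) i + (![1, a] : Fin 2 → ℕ) i) = ![2, 2 * a] := by
        funext i
        fin_cases i
        · rfl
        · change a + a = 2 * a
          ring
      rw [h2] at h1
      exact h1
    · rw [Submodule.mem_iInf]
      intro l
      refine ⟨?_, fun v => ?_⟩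
      · rw [map_mul, hgl, mul_zero]
      · rw [pderiv_mul, map_add, map_mul, map_mul, hgl, zero_mul, mul_zero, add_zero]
  have hne : g.1 * g.1 ≠ 0 := by
    have : g.1 ≠ 0 := fun h => hg0 (Subtype.ext h)
    exact mul_ne_zero this this
  have hfinS : Module.Finite ℂ (Sys ![m, 1] ![2, 2 * a] p) :=
    Submodule.finiteDimensional_of_le (S₂ := MultiHom ![m, 1] ![2, 2 * a]) inf_le_left
  rw [Submodule.finrank_eq_zero] at hind
  rw [hind, Submodule.mem_bot] at hsq
  exact hne hsq

theorem E20 (hALR : ALR_stmt) (hMHS : MHS_stmt) (hDIM : DIM_stmt) (hEUL : EUL_stmt)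
    (hHOM : HOM_stmt) : E20_stmt := by
  intro m e hm he
  constructor
  · intro h
    by_contra hodd
    rw [Nat.not_even_iff_odd] at hodd
    obtain ⟨b, rfl⟩ := hodd
    exact E20_odd hALR hMHS hDIM hEUL hHOM m b h
  · rintro ⟨a, rfl⟩
    rw [← two_mul]
    exact E20_even hMHS hDIM m a hm (by omega)

end Pool.Agent.SV
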