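import Pool.Agent.helper80.SV.Spec3

set_option autoImplicit false

namespace Pool.Agent.SV

theorem ALZ (hALN : ALN_stmt) (hZB : ZB_stmt) : ALZ_stmt := by
  intro k n hk hn
  have hfin := hALN k n hk hn
  refine (hfin.image (fun e : Fin k → ℕ => (fun i => (e i : ℤ)))).subset ?_
  intro d hd
  have hZ := hZB k n
  by_cases hneg : ∃ i, d i < 0
  · exfalso
    have h2 := hZ.2 d hneg
    apply hd
    exact ⟨fun h => absurd h h2.1, fun h => absurd h h2.2⟩
  · push Not at hneg
    have hde : (fun i => (((d i).toNat : ℕ) : ℤ)) = d := by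
      funext i
      exact Int.toNat_of_nonneg (hneg i)
    refine ⟨fun i => (d i).toNat, ?_, hde⟩
    have h1 := hZ.1 (fun i => (d i).toNat)
    intro hcon
    apply hd
    rw [← hde]
    exact h1.1.trans (hcon.trans h1.2.symm)

end Pool.Agent.SV
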